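import Mathlib
import Pool.Agent.H491.Lin
import Pool.Agent.H491.Conv

set_option autoImplicit false

/-!
# Multiple zeta values: one power of `π`, or robust growth of the dimensions

There are `2 ^ (k - 2)` indices of weight `k`. Either every multiple zeta value is an algebraic multiple of the power of
`π` of its weight, or there is an `m ≥ 1` such that for all `e`, `k` with `2 m e + 2 ≤ k` every space `E` of dimension at
most `e` over the field of the real algebraic numbers misses at least `2 ^ (k - 2 m e - 2) / binom(k, 2 m e)` of the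
multiple zeta values of weight `k`. For a fixed `e` this is at least `c 2 ^ k / k ^ C`, and it still grows exponentially
for `e = δ k` with a small `δ > 0`. So in the second case the dimension of the span stays larger than `δ k` if one removes
any exponentially small part (with a small exponent) of the `2 ^ (k - 2)` indices.

Without a case distinction: the same bound holds for a space `E` of dimension at most `e` over the real algebraic numbers
that does not contain `π ^ k`.

Proof. Suppose that `θ = (ζ(v) / π ^ |v|) ^ 2` is transcendental, and let `m = |v|`. The numbers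
`z_i = ζ(v) ^ (2 i) ζ(2 m (e - i))`, `0 ≤ i ≤ e`, have the same weight and are linearly independent over the real algebraic
numbers. So for no index `u` of weight `k - 2 m e` a space `E` of dimension `e` contains all the `ζ(u) z_i`. By the stuffle
product `ζ(u) z_i` is a sum of multiple zeta values of weight `k` with indices from which one gets `u` by taking away
`2 m e` units, and an index of weight `k` gives at most `binom(k, 2 m e)` indices `u` in this way.
-/

namespace Pool.Agent.Results.MP_56e040_nt.RobustGrowth

/-- the field of the real algebraic numbers -/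
noncomputable abbrev RealAlg : IntermediateField ℚ ℝ := algebraicClosure ℚ ℝ

/-- the admissible indices: finite sequences `(s_1, …, s_k)` of positive integers, empty or with `s_1 ≥ 2` -/
def Admissible (s : List ℕ) : Prop := (∀ a ∈ s, 1 ≤ a) ∧ ∀ a ∈ s.head?, 2 ≤ a

/-- the multiple zeta value `ζ(s_1, …, s_k) = ∑_{n_1 > ⋯ > n_k ≥ 1} n_1 ^ (-s_1) ⋯ n_k ^ (-s_k)` -/
noncomputable def zeta (s : List ℕ) : ℝ :=
  ∑' n : {n : Fin s.length → ℕ // StrictAnti n ∧ ∀ i, 1 ≤ n i}, ∏ i, (((n.1 i : ℕ) : ℝ) ^ s.get i)⁻¹

open Pool.Agent.H447R2.MZ Pool.Agent.H491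

theorem admissible_iff (s : List ℕ) : Admissible s ↔ Adm s := by
  constructor
  · rintro ⟨h1, h2⟩
    refine ⟨h1, fun a t e => h2 a ?_⟩
    rw [e]
    rfl
  · rintro ⟨h1, h2⟩
    refine ⟨h1, fun a ha => ?_⟩
    rcases s with _ | ⟨b, t⟩
    · simp at ha
    · simp only [List.head?_cons, Option.mem_def, Option.some.injEq] at ha
      subst ha
      exact h2 b t rfl

theorem zeta_eq (s : List ℕ) (hs : Adm s) : zeta s = val s := (Hit.val_eq_tsum_anti s hs).symm

theorem result :
    (∀ s : List ℕ, Admissible s → IsAlgebraic ℚ (zeta s / Real.pi ^ s.sum)) ∨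
    ∃ m : ℕ, 1 ≤ m ∧ ∀ e k : ℕ, 2 * (m * e) + 2 ≤ k → ∀ E : Submodule RealAlg ℝ, Module.rank RealAlg E ≤ e →
      2 ^ (k - 2 * (m * e) - 2) ≤
        k.choose (2 * (m * e)) * {s : List ℕ | Admissible s ∧ s.sum = k ∧ zeta s ∉ E}.ncard := by
  by_cases h : ∀ s, Adm s → val s / Real.pi ^ s.sum ∈ Hit.RA
  · left
    intro s hs
    rw [admissible_iff] at hs
    rw [zeta_eq s hs]
    exact Hit.mem_RA.1 (h s hs)
  · right
    push Not at h
    obtain ⟨v, hv, hθ⟩ := h
    refine ⟨v.sum, Hit.sum_pos_of_notMem hv hθ, fun e k hk E hE => ?_⟩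
    have e1 : {s : List ℕ | Admissible s ∧ s.sum = k ∧ zeta s ∉ E} = ↑(Hit.outside k E) := by
      ext s
      rw [Finset.mem_coe, Hit.mem_outside, Set.mem_ofPred_eq, admissible_iff, ← and_assoc]
      refine and_congr_right fun h2 => ?_
      rw [zeta_eq s h2.1]
    rw [e1, Set.ncard_coe_finset]
    exact Hit.outside_card2 hv hθ e k hk E hE

end Pool.Agent.Results.MP_56e040_nt.RobustGrowth
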